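import Pool.Agent.Helper8K9.WM.Rank
import Pool.Agent.Helper3K9.EW.Cyf
import Pool.Agent.Helper3K9.EW.Cyl
import Pool.Agent.Helper3K9.EW.Mono
import Pool.Agent.Helper3K9.EW.Gen
import Pool.Agent.Helper3K9.EW.Key
import Pool.Agent.Helper3K9.EW.Ssc
import Pool.Agent.Helper3K9.EW.Emb

/-!
# The monodromy-weight property for Galois representations which are close to pure ones
-/

set_option autoImplicit false

namespace Pool.Agent.Results.MP_f8720a_ag.InheritedPurity

open NumberField IsDedekindDomain Filter Matrix Polynomial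

/-- the absolute Galois group of the field `K`, with the Krull topology -/
abbrev AbsGal (K : Type) [Field K] : Type := Gal(AlgebraicClosure K/K)

section
variable {K : Type} [Field K]

/-- `g` belongs to the inertia group at the ideal `Q` of the ring of all algebraic integers. -/
def InInertia (Q : Ideal (𝓞 (AlgebraicClosure K))) (g : AbsGal K) : Prop :=
  ∀ x : 𝓞 (AlgebraicClosure K), g • x - x ∈ Q

/-- `g` acts on the residue field at `Q` as the `q`-th power. -/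
def FrobeniusAt (Q : Ideal (𝓞 (AlgebraicClosure K))) (q : ℕ) (g : AbsGal K) : Prop :=
  ∀ x : 𝓞 (AlgebraicClosure K), g • x - x ^ q ∈ Q

/-- `Q` is a maximal ideal of the ring of all algebraic integers which lies above the finite
place `v` of `K`. -/
def LiesAbove [NumberField K] (v : HeightOneSpectrum (𝓞 K))
    (Q : Ideal (𝓞 (AlgebraicClosure K))) : Prop :=
  Q.IsMaximal ∧ Q.comap (algebraMap (𝓞 K) (𝓞 (AlgebraicClosure K))) = v.asIdeal

/-- the matrix of `g` -/
noncomputable def mat {F : Type} [Field F] {n : ℕ} (ρ : AbsGal K →* GL (Fin n) F) (g : AbsGal K) :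
    Matrix (Fin n) (Fin n) F :=
  (ρ g : GL (Fin n) F)

/-- `S` is a subspace which is stable under the action `ρ`. -/
def IsStable {F : Type} [Field F] {n : ℕ} (ρ : AbsGal K →* GL (Fin n) F)
    (S : Submodule F (Fin n → F)) : Prop := ∀ g, ∀ x ∈ S, mat ρ g *ᵥ x ∈ S

/-- Every stable subspace has a stable complement. -/
def IsSemisimple {F : Type} [Field F] {n : ℕ} (ρ : AbsGal K →* GL (Fin n) F) : Prop :=
  ∀ S, IsStable ρ S → ∃ S', IsStable ρ S' ∧ IsCompl S S'

end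

section
variable {n : ℕ}

/-- the logarithm `∑ (-1)^k (T - 1)^(k+1) / (k + 1)` of a unipotent matrix `T` -/
noncomputable def unipotentLog (T : Matrix (Fin n) (Fin n) ℂ) : Matrix (Fin n) (Fin n) ℂ :=
  ∑ k ∈ Finset.range n, ((-1 : ℂ) ^ k / ((k : ℂ) + 1)) • (T - 1) ^ (k + 1)

/-- the generalized eigenspace of `A` for the number `z` -/
noncomputable def genEigenspace (A : Matrix (Fin n) (Fin n) ℂ) (z : ℂ) : Submodule ℂ (Fin n → ℂ) :=
  Module.End.maxGenEigenspace (Matrix.toLin' A : Module.End ℂ (Fin n → ℂ)) z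

/-- The eigenvalues `z` of `A` satisfy `|z|^2 = Q^j` with integers `j` (the weights), and `N ^ s` maps
the generalized eigenspace of `A` for every `z` of weight `w + s` bijectively onto the generalized
eigenspace for `z / Q ^ s` (which has weight `w - s`), for all `s ≥ 0`. In other words: `N ^ s` is an
isomorphism from the part of weight `w + s` to the part of weight `w - s`. -/
def LefschetzProperty (A N : Matrix (Fin n) (Fin n) ℂ) (Q : ℕ) (w : ℤ) : Prop :=
  (∀ z : ℂ, A.charpoly.IsRoot z → ∃ j : ℤ, ‖z‖ ^ 2 = (Q : ℝ) ^ j) ∧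
  ∀ (z : ℂ) (s : ℕ), ‖z‖ ^ 2 = (Q : ℝ) ^ (w + s) →
    Set.BijOn (fun x => N ^ s *ᵥ x) (genEigenspace A z : Set (Fin n → ℂ))
      (genEigenspace A (z / (Q : ℂ) ^ s))

end

/-- The monodromy-weight property of weight `w` at the ideal `Q` above the place `v`, for the element
`τ` of the inertia group: `τ` acts unipotently, and with `N = log ρ(τ)`, for every geometric Frobenius
element `g` (also for the geometric Frobenius elements of the extensions of degree `k`), `N ^ s` is an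
isomorphism from the part of weight `w + s` to the part of weight `w - s`, for all `s ≥ 0`
(weights of the eigenvalues of `g`, with respect to every embedding of `ℚ_ℓ` into `ℂ`). -/
def MonodromyWeightFor {K : Type} [Field K] [NumberField K] {ℓ : ℕ} [Fact ℓ.Prime] {n : ℕ}
    (ρ : AbsGal K →* GL (Fin n) ℚ_[ℓ]) (w : ℤ) (v : HeightOneSpectrum (𝓞 K))
    (Q : Ideal (𝓞 (AlgebraicClosure K))) (τ : AbsGal K) : Prop :=
  InInertia Q τ ∧ IsNilpotent (mat ρ τ - 1) ∧
    ∀ (k : ℕ) (g : AbsGal K), 0 < k → FrobeniusAt Q (Ideal.absNorm v.asIdeal ^ k) g⁻¹ →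
      ∀ e : ℚ_[ℓ] →+* ℂ, LefschetzProperty ((mat ρ g).map e) (unipotentLog ((mat ρ τ).map e))
        (Ideal.absNorm v.asIdeal ^ k) w

/-- The monodromy-weight property of weight `w` at the place `v` -/
def MonodromyWeight {K : Type} [Field K] [NumberField K] {ℓ : ℕ} [Fact ℓ.Prime] {n : ℕ}
    (ρ : AbsGal K →* GL (Fin n) ℚ_[ℓ]) (w : ℤ) (v : HeightOneSpectrum (𝓞 K)) : Prop :=
  ∀ Q, LiesAbove v Q → ∃ τ, MonodromyWeightFor ρ w v Q τ

/-- **Monodromy-weight property for representations which are close to pure ones.** -/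
theorem result {K : Type} [Field K] [NumberField K] {ℓ : ℕ} [Fact ℓ.Prime] {n m : ℕ}
    (V : AbsGal K →* GL (Fin n) ℚ_[ℓ]) (hV : Continuous V)
    (W : AbsGal K →* GL (Fin m) ℚ_[ℓ]) (hW : Continuous W) (hss : IsSemisimple W) (w : ℤ)
    -- the exceptional places, and the differences of the traces at the other places
    (B : Set (HeightOneSpectrum (𝓞 K))) (hB : B.Finite) (a : HeightOneSpectrum (𝓞 K) → ℚ)
    (htr : ∀ v, v ∉ B → (ℓ : 𝓞 K) ∉ v.asIdeal → ∀ Q, LiesAbove v Q →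
      ∀ g, FrobeniusAt Q (Ideal.absNorm v.asIdeal) g →
        (mat V g⁻¹).trace - (mat W g⁻¹).trace = (a v : ℚ_[ℓ]))
    (C : ℝ) (hC : ∀ v, v ∉ B → (a v : ℝ) ^ 2 ≤ C * (Ideal.absNorm v.asIdeal : ℝ) ^ w)
    -- most differences are divisible, up to a bounded denominator
    (d : ℕ) (hd : 0 < d) (θ : ℝ) (hθ : θ * ((n : ℝ) ^ 2 + (m : ℝ) ^ 2) < 1)
    (hdiv : ∃ᶠ x : ℕ in atTop, ({v : HeightOneSpectrum (𝓞 K) | Ideal.absNorm v.asIdeal ≤ x ∧
      ¬ ∃ c : ℤ, (d : ℚ) * a v ^ 2 = (Ideal.absNorm v.asIdeal : ℚ) ^ w * c}.ncard : ℝ) ≤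
        θ * Nat.primeCounting x)
    (v : HeightOneSpectrum (𝓞 K)) (hv : (ℓ : 𝓞 K) ∉ v.asIdeal) (hpure : MonodromyWeight W w v) :
    MonodromyWeight V w v ∧
    ∀ Q, LiesAbove v Q → ∃ τ, MonodromyWeightFor V w v Q τ ∧ MonodromyWeightFor W w v Q τ ∧
      ∀ i : ℕ, 0 < i → ((mat V τ - 1) ^ i).rank = ((mat W τ - 1) ^ i).rank := by
  have hcl : Pool.Agent.Helper8K9.WM.Close1 V W w := by
    refine Pool.Agent.Helper8K9.WM.close1 V hV W hW B hB a w (by
      rintro v hv hℓ g ⟨Q, hQ, hQv, hg⟩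
      exact htr v hv hℓ Q ⟨hQ, hQv⟩ g hg) C hC θ hθ hd ?_
    refine (hdiv.and_eventually (Nat.tendsto_primeCounting.eventually_gt_atTop 0)).mono ?_
    rintro N ⟨h1, h3⟩
    have h4 : (0 : ℝ) < (Nat.primeCounting N : ℝ) := by exact_mod_cast h3
    unfold Pool.Agent.W401.Cheb.dens
    rw [div_le_iff₀ h4]
    exact h1
  have key : ∀ Q, LiesAbove v Q → ∃ τ, MonodromyWeightFor V w v Q τ ∧
      MonodromyWeightFor W w v Q τ ∧
      ∀ i : ℕ, 0 < i → ((mat V τ - 1) ^ i).rank = ((mat W τ - 1) ^ i).rank := by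
    intro Q hQ
    have hq : 2 ≤ Ideal.absNorm v.asIdeal := by
      have h0 : Ideal.absNorm v.asIdeal ≠ 0 := fun h0 => v.ne_bot (Ideal.absNorm_eq_zero_iff.1 h0)
      have h1 : Ideal.absNorm v.asIdeal ≠ 1 := fun h1 =>
        v.isPrime.ne_top (Ideal.absNorm_eq_one_iff.1 h1)
      omega
    have hℓQ : (ℓ : 𝓞 (AlgebraicClosure K)) ∉ Q := by
      intro h
      apply hv
      rw [← hQ.2, Ideal.mem_comap, map_natCast]
      exact h
    have hQm := hQ.1
    obtain ⟨σ, hσ⟩ := Pool.Agent.W352.ChAbs.exists_frob v Q hQ.2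
    have hWmw : Pool.Agent.Helper8K9.WM.MW W w Q (Ideal.absNorm v.asIdeal) := by
      obtain ⟨τ, hτ, hτu, hop⟩ := hpure Q hQ
      refine ⟨τ, hτ, hτu, fun k g hk hg e => ?_⟩
      obtain ⟨h1, h2⟩ := hop k g⁻¹ hk (by rwa [inv_inv]) e
      exact ⟨h1, h2⟩
    obtain ⟨τ, hτ, hVu, hWu, hop, hrk⟩ := Pool.Agent.Helper8K9.WM.pair
      (Pool.Agent.Helper3K9.EW.emb Pool.Agent.Helper3K9.EW.key Pool.Agent.Helper3K9.EW.ssc)
      Pool.Agent.Helper3K9.EW.mono
      (Pool.Agent.Helper3K9.EW.gen Pool.Agent.Helper3K9.EW.mono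
        (Pool.Agent.Helper3K9.EW.cyl Pool.Agent.Helper3K9.EW.cyf))
      V hV W hW w hcl hss Q hQ.1 hℓQ _ hq σ hσ hWmw
    refine ⟨τ, ⟨hτ, hVu, fun k g hk hg e => ?_⟩, ⟨hτ, hWu, fun k g hk hg e => ?_⟩, hrk⟩
    · obtain ⟨h1, h2⟩ := (hop k g⁻¹ hk hg e).1
      rw [inv_inv] at h1 h2
      exact ⟨h1, h2⟩
    · obtain ⟨h1, h2⟩ := (hop k g⁻¹ hk hg e).2
      rw [inv_inv] at h1 h2
      exact ⟨h1, h2⟩
  exact ⟨fun Q hQ => (key Q hQ).imp fun τ h => h.1, key⟩

end Pool.Agent.Results.MP_f8720a_ag.InheritedPurity
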