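import Pool.Agent.Helper8K9.KD.Stm

/-!
# MP_f8720a_ag: Kato's log `ℓ`-adic monodromy-weight conjecture for classes of SNCL threefolds

1. A class of SNCL threefolds and all `ℓ`: the second cohomology of the components is spanned by
divisor classes, and the first cohomology of the double surfaces gives no obstruction; here the
proof uses the positivity of the intersection forms on divisors and on abelian varieties.

2. A much larger class and a set of primes `ℓ` of positive lower density: if the positivity is not
known, we use instead an argument of Clozel (for abelian varieties over finite fields). The subspaces
which obstruct the conjecture are stable under Frobenius and isotropic. There are no such subspaces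
in a space on which Frobenius has a squarefree rational characteristic polynomial, if all its
eigenvalues are conjugate to their complex conjugates over `ℚ_ℓ`; by the theorem of Chebotarev, the
`ℓ` for which this is so have lower density at least `2 ^ (-r)`, `r` the number of pairs of complex
conjugate eigenvalues.
-/

set_option autoImplicit false

open Module Polynomial

universe u v

namespace Pool.Agent.Results.MP_f8720a_ag.LogThreefolds

open Pool.Agent.Y143 Pool.Agent.Helper60K9.KL Pool.Agent.Helper8K9.KD Pool.Agent.Helper8K9.AV
  Pool.Agent.Helper11K9.Dens

/-- **Kato's log `ℓ`-adic monodromy-weight conjecture for classes of SNCL threefolds.**

`X` is the Kummer log etale cohomology `H^m`, `m ≥ 0`, of a projective SNCL scheme of relative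
dimension three over a log point whose residue field is finite with `q` elements (with coefficients
in a field `Ω` containing `ℚ_ℓ`): the cohomology of the `Y^(a+1)` (disjoint union of the
intersections of `a + 1` different components), its restriction and Gysin maps, Poincare duality,
the hard Lefschetz theorem and the Weil conjectures for the smooth projective varieties `Y^(a+1)`,
and the weight spectral sequence, which degenerates at `E_2` and gives the filtration `P` (here
`X.W`) and the action of `N`. The hard Lefschetz theorem for the `H^m`, available for semistable
schemes over a trait but not for log schemes over a log point, is *not* assumed. `A` consists of the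
classes of components and divisors, with their known positivity properties.

The second cohomology of the components: `TransNondeg` says that it is spanned by divisor classes
(more generally, by divisor classes and a space of classes on whose restriction to the double
surfaces the intersection form is nondegenerate, and orthogonal to the restrictions of the divisor
classes). `TransSimple` says that it is spanned by divisor classes and a space of classes whose
restrictions to the double surfaces are orthogonal to those of the divisor classes, and belong to a
space on which Frobenius (or another operator) has simple spectrum.

The first cohomology of the double surfaces: `NoObstruction` says that it is zero, or the components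
have no third cohomology, or the primitive third cohomology of the components comes from curves.
`GysSimple` says that its primitive images in the third cohomology of the components belong to a
space on which Frobenius (or another operator) has simple spectrum.

For example `TransNondeg` and `NoObstruction` hold if all components are rational threefolds, and
`TransSimple` and `GysSimple` hold if the components satisfy the Tate conjecture for divisors, and the
characteristic polynomials of Frobenius on the transcendental part of the second cohomology of the
double surfaces, and on the primitive third cohomology of the components, are squarefree.

`KatoAt X m` says that `P` is the monodromy filtration of `N` on `H^m`. First part: one `ℓ`.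
`SecondGood` is `TransNondeg`, or `TransSimple` with eigenvalues conjugate over `Ω` to their complex
conjugates; `FirstGood` is `NoObstruction`, or `GysSimple` with such eigenvalues. Second part: the
set of the `ℓ` for which the conjecture holds in all degrees `m` has lower density at least
`2 ^ (-r)`, `r` the number of the pairs of complex conjugate non-real roots of the polynomials `P 0`,
`P 1`, if for all `ℓ` one has `TransNondeg` or `TransSimple`, and `NoObstruction` or `GysSimple`. -/
theorem result :
    (∀ {Ω : Type u} [Field Ω] [CharZero Ω] {Γ : Type} {q : ℕ} (X : SemistableModel.{u, v} Ω Γ 3 q)
      (A : DivisorClasses X.toSpecialFibre), SecondGood A → FirstGood X.toSpecialFibre →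
      ∀ m, KatoAt X m) ∧
    ∀ {q p : ℕ} (F : AdicFamily.{v} 3 q p) (P Q : Fin 2 → ℚ[X]),
      (∀ j, IsConjugationPair (P j) (Q j)) → F.GoodBy P Q →
      HasLowerDensity F.katoAll ((1 / 2 : ℝ) ^ pairNumber P) := by
  refine ⟨fun {Ω} _ _ {Γ q} X A hT hG m => ?_, fun {q p} F P Q hPQ h => ?_⟩
  · refine (kato_three_iff A).2 ⟨?_, ?_⟩ m
    · rcases hG with hG | ⟨P, Q, hP, hl, hG⟩
      · exact primGysin_of_no hG
      · exact primGysin_of_simple _ rfl hP.1 hl hG
    · rcases hT with hT | ⟨P, Q, hP, hl, hT⟩
      · exact divCrit_of_trans A le_rfl hT
      · exact divCrit_of_trans A le_rfl (transNondeg_of_simple rfl hP.1 hl hT)
  · exact many_three hPQ p F.K F.Γ F.X F.A fun ℓ _ hℓ =>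
      ⟨F.adic ℓ hℓ, (h ℓ hℓ).1.imp_right fun h => Or.inr ⟨rfl, h⟩, (h ℓ hℓ).2⟩

end Pool.Agent.Results.MP_f8720a_ag.LogThreefolds
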