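import Pool.Agent.Helper60K9.KL.Curves

/-!
# MP_f8720a_ag: Kato's log `ℓ`-adic monodromy-weight conjecture in weights zero and one
-/

set_option autoImplicit false

open Module

universe u v

namespace Pool.Agent.Results.MP_f8720a_ag.LowWeights

open Pool.Agent.Y143 Pool.Agent.Helper60K9.KL

variable {Ω : Type u} [Field Ω] [CharZero Ω] {Γ : Type} {n q : ℕ}

/-- Weights zero and one: for all `m`, `N ^ m : gr^P_(2m) H^m → gr^P_0 H^m` is an isomorphism;
`N ^ (m - 1) : gr^P_(2m-1) H^m → gr^P_1 H^m` is injective, and it is an isomorphism if and only if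
`PrimGysin` holds for the Gysin map from `H^1(Y^(m))` to `H^3(Y^(m-1))`. -/
def WeightsZeroOne (X : SemistableModel.{u, v} Ω Γ n q) : Prop :=
  (∀ m, 1 ≤ m → GrIso X m m) ∧
    ∀ a, GrInj X (a + 2) (a + 1) ∧ (GrIso X (a + 2) (a + 1) ↔ PrimGysin X.toSpecialFibre a)

/-- Poincare duality exchanges the degrees `m` and `2n - m`. -/
def Duality (X : SemistableModel.{u, v} Ω Γ n q) : Prop :=
  ∀ m m', m + m' = 2 * n → (∀ e, GrIso X m e ↔ GrIso X m' e) ∧ (KatoAt X m ↔ KatoAt X m')

/-- **Kato's log `ℓ`-adic monodromy-weight conjecture in weights zero and one, and for `H^2`.**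

`X` is the Kummer log etale cohomology `H^m`, `m ≥ 0`, of a projective SNCL scheme of relative
dimension `n` over a log point whose residue field is finite with `q` elements (with coefficients
in a field `Ω` containing `ℚ_ℓ`): the cohomology of the `Y^(a+1)` (disjoint union of the
intersections of `a + 1` different components), its restriction and Gysin maps, Poincare duality,
the hard Lefschetz theorem and the Weil conjectures for the smooth projective varieties `Y^(a+1)`,
and the weight spectral sequence, which degenerates at `E_2` and gives the filtration `P` (here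
`X.W`) and the action of `N`. The hard Lefschetz theorem for the `H^m` is *not* assumed. `A` consists
of the classes of components and divisors, with their known positivity properties.

The conjecture (`KatoAt X m`: `P` is the monodromy filtration of `N` on `H^m`) holds for `m = 1`;
for `m = 2` it is equivalent to `PrimGysin X 0`: a class in `H^1(Y^(2))` with restriction zero whose
Gysin image in `H^3(Y^(1))` is primitive has Gysin image zero. This holds if `H^1(Y^(2)) = 0`, or
`H^3(Y^(1)) = 0`, or the primitive part of `H^3(Y^(1))` comes from curves. By duality the same holds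
for `2n - 1` and `2n - 2`. -/
theorem result (X : SemistableModel.{u, v} Ω Γ n q) (A : DivisorClasses X.toSpecialFibre) :
    WeightsZeroOne X ∧ KatoAt X 1 ∧ (KatoAt X 2 ↔ PrimGysin X.toSpecialFibre 0) ∧
      (∀ a, NoObstruction X.toSpecialFibre a → PrimGysin X.toSpecialFibre a) ∧ Duality X :=
  ⟨⟨fun m hm => grIso_top A m hm, fun a => ⟨grInj_one A (a + 2) (by omega), grIso_one A a⟩⟩,
    katoAt_one A, katoAt_two A, fun _ h => primGysin_of_no h,
    fun m m' h => ⟨fun e => grIso_dual X m m' e h, katoAt_dual X m m' h⟩⟩

end Pool.Agent.Results.MP_f8720a_ag.LowWeights
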