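import Pool.Agent.Helper8K9.KD.Stm

/-!
# MP_f8720a_ag: Kato's log `ℓ`-adic monodromy-weight conjecture for the middle cohomology
-/

set_option autoImplicit false

open Module Polynomial

universe u v

namespace Pool.Agent.Results.MP_f8720a_ag.MiddleCohomology

open Pool.Agent.Y143 Pool.Agent.Helper60K9.KL Pool.Agent.Helper8K9.KD Pool.Agent.Helper8K9.AV
  Pool.Agent.Helper11K9.Dens

/-- **Kato's log `ℓ`-adic monodromy-weight conjecture for the middle cohomology `H^n`.**

`X` is the Kummer log etale cohomology `H^m`, `m ≥ 0`, of a projective SNCL scheme of relative
dimension `n` over a log point whose residue field is finite with `q` elements (with coefficients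
in a field `Ω` containing `ℚ_ℓ`): the cohomology of the `Y^(a+1)` (disjoint union of the
intersections of `a + 1` different components), its restriction and Gysin maps, Poincare duality,
the hard Lefschetz theorem and the Weil conjectures for the smooth projective varieties `Y^(a+1)`,
and the weight spectral sequence, which degenerates at `E_2` and gives the filtration `P` (here
`X.W`) and the action of `N`. The hard Lefschetz theorem for the `H^m` is *not* assumed. `A` consists
of the classes of components and divisors, with their known positivity properties.

First part (`MiddleCriteria`): the conjecture for `H^n` (`KatoAt X n`: `P` is the monodromy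
filtration of `N`) is equivalent to a condition `MidCrit X a` on the classes of degree `d - 1` on each `Y^(a+1)` of
dimension `d = n - a ≥ 3`; in particular the strata of dimension one and two never obstruct it, and
`N ^ n` and `N ^ (n - 1)` are always isomorphisms. For the strata of dimension three the condition is
`DivCrit`, and it holds if their second cohomology is spanned by divisor classes (more generally if
`TransNondeg`); for the strata of dimension `d ≥ 4` it holds if a class of degree `d - 1` whose
restriction has Gysin image zero has restriction zero.

Second part: the conditions hold generically for many primes. If for all `a ≤ n - 3` Frobenius (or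
another operator in the algebra generated by Frobenius and correspondences, with the complex
conjugate as its adjoint) has simple spectrum on the middle cohomology of the `Y^(a+2)`, or for
`a = n - 3`, in the sense of `TransSimple`, on the transcendental part of the second cohomology of the
surfaces `Y^(a+2)`, with characteristic polynomials `P a` independent of `ℓ`, then the conjecture is
true for `H^n` for a set of primes `ℓ` of lower density at least `2 ^ (-r)`, `r` the number of the
pairs of complex conjugate non-real roots of the polynomials `P a`. (The subspaces which obstruct the
conjecture are stable under Frobenius and isotropic; an argument of Clozel shows that there are none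
if the roots of the `P a` are conjugate to their complex conjugates over `ℚ_ℓ`.) -/
theorem result :
    (∀ {Ω : Type u} [Field Ω] [CharZero Ω] {Γ : Type} {n q : ℕ}
      (X : SemistableModel.{u, v} Ω Γ n q) (A : DivisorClasses X.toSpecialFibre),
      MiddleCriteria X A) ∧
    ∀ {n q p : ℕ} (F : AdicFamily.{v} n q p) (P Q : Fin (n - 2) → ℚ[X]),
      (∀ a, IsConjugationPair (P a) (Q a)) → F.CoveredBy P Q →
      HasLowerDensity (F.kato n) ((1 / 2 : ℝ) ^ pairNumber P) := by
  refine ⟨fun {Ω} _ _ {Γ n q} X A => ?_, fun {n q p} F P Q hPQ h =>
    many_middle hPQ p F.K F.Γ F.X F.A fun ℓ _ hℓ => ⟨F.adic ℓ hℓ, h ℓ hℓ⟩⟩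
  refine ⟨katoAt_iff_mid A, grIso_iff_midCrit X, fun a h1 h2 => ?_, fun a h => ?_,
    fun h a ha => midCrit_of_zero (h a ha)⟩
  · rw [← grIso_iff_midCrit]
    rcases (show n = a + 1 ∨ n = a + 2 by omega) with h | h
    · subst h
      exact grIso_top A (a + 1) (by omega)
    · subst h
      exact (grIso_one A a).2 (primGysin_top _ a le_rfl)
  · have h1 := midCrit_three (X := X) h
    exact ⟨h1, fun hT => h1.2 (divCrit_of_trans A (by omega) hT)⟩

end Pool.Agent.Results.MP_f8720a_ag.MiddleCohomology
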